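import Pool.Agent.Helper69.ISO.Sheet
import Pool.Agent.Helper79.PN.Fin

/-!
Row O3 of the sheet ISO (MP_7c9036_mp): the operator `-H - 3` on real functions.
-/

set_option autoImplicit false

open scoped Classical

namespace Pool.Agent.Helper85.ISO

open Pool.Agent.Helper79.PN Pool.Agent.Helper69.ISO Pool.Agent.Helper71.PN

/-- the adjacency operator has norm at most 10 -/
theorem adj_sq_le {a : Lam → ℝ} (ha : Sq a) : ∑' K, adj a K ^ 2 ≤ 100 * ∑' K, a K ^ 2 := by
  have hs : ∀ v : Lam, Summable fun K => a (K + v) ^ 2 := fun v =>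
    (Equiv.addRight v).summable_iff.2 ha
  have ht : ∀ v : Lam, ∑' K, a (K + v) ^ 2 = ∑' K, a K ^ 2 := fun v =>
    (Equiv.addRight v).tsum_eq (fun K => a K ^ 2)
  have hpt : ∀ K, adj a K ^ 2 ≤ ∑ i, 10 * (a (K + e i) ^ 2 + a (K + -e i) ^ 2) := by
    intro K
    have h1 : adj a K ^ 2 ≤ 5 * ∑ i, (a (K + e i) + a (K - e i)) ^ 2 := by
      have h2 := sq_sum_le_card_mul_sum_sq (s := (Finset.univ : Finset (ZMod 5)))
        (f := fun i => a (K + e i) + a (K - e i))
      rw [Finset.card_univ, ZMod.card] at h2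
      exact_mod_cast h2
    refine h1.trans ?_
    rw [Finset.mul_sum]
    refine Finset.sum_le_sum fun i _ => ?_
    rw [← sub_eq_add_neg]
    nlinarith [sq_nonneg (a (K + e i) - a (K - e i))]
  have hsum : ∀ i : ZMod 5, Summable fun K => 10 * (a (K + e i) ^ 2 + a (K + -e i) ^ 2) :=
    fun i => ((hs _).add (hs _)).mul_left 10
  have hS : Summable fun K => ∑ i : ZMod 5, 10 * (a (K + e i) ^ 2 + a (K + -e i) ^ 2) :=
    summable_sum fun i _ => hsum i
  calc ∑' K, adj a K ^ 2 ≤ ∑' K, ∑ i : ZMod 5, 10 * (a (K + e i) ^ 2 + a (K + -e i) ^ 2) :=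
        (fin_ADJ.1 a ha).tsum_le_tsum hpt hS
    _ = ∑ i : ZMod 5, ∑' K, 10 * (a (K + e i) ^ 2 + a (K + -e i) ^ 2) :=
        Summable.tsum_finsetSum fun i _ => hsum i
    _ = ∑ _i : ZMod 5, 20 * ∑' K, a K ^ 2 := by
        refine Finset.sum_congr rfl fun i _ => ?_
        rw [tsum_mul_left, (hs _).tsum_add (hs _), ht, ht]
        ring
    _ = 100 * ∑' K, a K ^ 2 := by
        rw [Finset.sum_const, Finset.card_univ, ZMod.card]
        simp only [nsmul_eq_mul]
        push_cast
        ring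

theorem ind_le {p : Prop} : 0 ≤ ind p ∧ ind p ≤ 1 := by
  unfold ind
  split_ifs
  · exact ⟨zero_le_one, le_rfl⟩
  · exact ⟨le_rfl, zero_le_one⟩

theorem BL_zero (P : Pen) (a : Lam → ℝ) : BL P (fun _ => 0) a = 0 := by
  unfold BL
  simp

theorem O3 (hO2 : ST_O2) : ST_O3 := by
  obtain ⟨C₂, hC₂, hO2⟩ := hO2
  refine ⟨2 * (42026 + 22350 * C₂) + C₂ * (447 * (2 * (42026 + 22350 * C₂)) + 3), by positivity,
    fun P f hf hsup horth => ?_⟩
  set a := pa P f with ha
  set b := pb P f with hb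
  set u := uu P 0 f with hu
  have hab : ∀ K, f K ^ 2 = a K ^ 2 + b K ^ 2 := by
    intro K
    rw [ha, hb]
    unfold pa pb
    by_cases h : IsT P K
    · rw [if_pos h, if_pos h]
      ring
    · rw [if_neg h, if_neg h]
      ring
  have hfab' : ∀ K, f K = a K + b K := by
    intro K
    rw [ha, hb]
    unfold pa pb
    by_cases h : IsT P K
    · rw [if_pos h, if_pos h]
      ring
    · rw [if_neg h, if_neg h]
      ring
  have hSa : Sq a := inq_dom hf fun K => by
    have := sq_nonneg (b K)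
    rw [hab K]
    linarith
  have hSb : Sq b := inq_dom hf fun K => by
    have := sq_nonneg (a K)
    rw [hab K]
    linarith
  have hSadj : Sq (adj f) := fin_ADJ.1 f hf
  have hSadja : Sq (adj a) := fin_ADJ.1 a hSa
  have hdg : ∀ K, -3 ≤ dg P K - 3 ∧ dg P K - 3 ≤ 7 := fun K => by
    have hd := fin_ADJ.2.2.2.1 P K
    constructor <;> linarith [hd.1, hd.2.1]
  have hSu : Sq u := by
    have hsum : Summable fun K => 2 * (100 * f K ^ 2 + adj f K ^ 2) :=
      ((hf.mul_left 100).add hSadj).mul_left 2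
    refine Summable.of_nonneg_of_le (fun K => sq_nonneg _) ?_ hsum
    intro K
    have hd := hdg K
    have h1 : (dg P K - 3 - 0) ^ 2 ≤ 100 := by nlinarith
    have h2 : ((dg P K - 3 - 0) * f K - adj f K) ^ 2 ≤ 2 * (100 * f K ^ 2 + adj f K ^ 2) := by
      have h3 : (dg P K - 3 - 0) ^ 2 * f K ^ 2 ≤ 100 * f K ^ 2 :=
        mul_le_mul_of_nonneg_right h1 (sq_nonneg _)
      nlinarith [sq_nonneg ((dg P K - 3 - 0) * f K + adj f K)]
    rw [hu]
    unfold uu
    by_cases h : InV P K
    · unfold ind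
      rw [if_pos h, one_mul]
      exact h2
    · unfold ind
      rw [if_neg h, zero_mul]
      have h4 := sq_nonneg (f K)
      have h5 := sq_nonneg (adj f K)
      nlinarith
  have hfab : ∑' K, f K ^ 2 = ∑' K, a K ^ 2 + ∑' K, b K ^ 2 := by
    rw [← hSa.tsum_add hSb]
    exact tsum_congr hab
  have hSup4 : Sup4 P a := by
    intro K hK
    rw [ha]
    unfold pa
    rcases hK with hK | hK
    · by_cases h : IsT P K
      · rw [if_pos h]
      · rw [if_neg h]
        exact hsup K hK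
    · rw [if_pos hK]
  have hb0 : ∀ K, ¬ IsT P K → b K = 0 := by
    intro K hK
    rw [hb]
    unfold pb
    rw [if_neg hK]
  have hbT : ∀ K, IsT P K → b K = f K := by
    intro K hK
    rw [hb]
    unfold pb
    rw [if_pos hK]
  -- the first inequality
  have hz : ng (fun _ : Lam => (0 : ℝ)) = fun _ => 0 := rfl
  have h1 := fin_LBD P (1 / 5) a (fun _ => 0) (by norm_num) le_rfl hSa
    (by unfold Sq; simp) hSup4 (fun _ _ => rfl)
  rw [hz, BL_zero, BL_zero] at h1
  have h2 := fin_EXP P 0 f hf hsup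
  rw [← ha, ← hb, ← hu] at h2
  have hdgs : Summable fun K => (dg P K - 3 - 0) * a K ^ 2 := by
    refine Summable.of_norm_bounded (hSa.mul_left 7) fun K => ?_
    have hd := hdg K
    rw [Real.norm_eq_abs, abs_mul, abs_of_nonneg (sq_nonneg (a K))]
    refine mul_le_mul_of_nonneg_right ?_ (sq_nonneg _)
    rw [abs_le]
    constructor <;> linarith
  have e1 : ∑' K, (dg P K - 3 - 1 / 5) * a K ^ 2 =
      ∑' K, (dg P K - 3 - 0) * a K ^ 2 - 1 / 5 * ∑' K, a K ^ 2 := by
    rw [← tsum_mul_left, ← hdgs.tsum_sub (hSa.mul_left (1 / 5))]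
    exact tsum_congr fun K => by ring
  rw [e1] at h1
  simp only [ne_eq, OfNat.ofNat_ne_zero, not_false_eq_true, zero_pow, tsum_zero, mul_zero,
    add_zero, zero_mul] at h1 h2
  -- the second inequality
  have horth' : ∀ d : Lam → ℝ, Sq d → (∀ K, ¬ IsT P K → d K = 0) →
      (∀ K, InV P K → adj d K = 0) → ∑' K, b K * d K = 0 := by
    intro d hd hdT hdV
    rw [← horth d hd (fun K hK => hdT K fun hT => hK (fin_TT P K hT).1) fun K => ?_]
    · refine tsum_congr fun K => ?_
      by_cases hK : IsT P K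
      · rw [hbT K hK]
      · rw [hdT K hK, mul_zero, mul_zero]
    · unfold uu ind
      by_cases hV : InV P K
      · rw [if_pos hV, hdV K hV, one_mul]
        by_cases hK : IsT P K
        · rw [(fin_TT P K hK).2.1]
          ring
        · rw [hdT K hK]
          ring
      · rw [if_neg hV, zero_mul]
  have h3 := hO2 P b hSb hb0 horth'
  have hW : ∑' K, (ind (InV P K) * adj b K) ^ 2 ≤
      3 * (49 * ∑' K, a K ^ 2 + 100 * ∑' K, a K ^ 2 + ∑' K, u K ^ 2) := by
    have hpt : ∀ K, (ind (InV P K) * adj b K) ^ 2 ≤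
        3 * (49 * a K ^ 2 + adj a K ^ 2 + u K ^ 2) := by
      intro K
      have hadj : adj f K = adj a K + adj b K := by
        unfold adj
        rw [← Finset.sum_add_distrib]
        refine Finset.sum_congr rfl fun i _ => ?_
        rw [hfab' (K + e i), hfab' (K - e i)]
        ring
      have hdf : (dg P K - 3) * f K = (dg P K - 3) * a K := by
        by_cases hK : IsT P K
        · rw [(fin_TT P K hK).2.1]
          ring
        · rw [hfab' K, hb0 K hK, add_zero]
      have hx : ind (InV P K) * adj b K = ind (InV P K) * ((dg P K - 3) * a K) +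
          -(ind (InV P K) * adj a K) + -(u K) := by
        rw [hu]
        unfold uu
        rw [hadj, sub_zero, hdf]
        ring
      have hi := ind_le (p := InV P K)
      have hd := hdg K
      have t1 : (ind (InV P K) * ((dg P K - 3) * a K)) ^ 2 ≤ 49 * a K ^ 2 := by
        rw [mul_pow, mul_pow]
        have s1 : ind (InV P K) ^ 2 ≤ 1 := by nlinarith
        have s2 : (dg P K - 3) ^ 2 ≤ 49 := by nlinarith
        have s3 : (dg P K - 3) ^ 2 * a K ^ 2 ≤ 49 * a K ^ 2 :=
          mul_le_mul_of_nonneg_right s2 (sq_nonneg _)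
        have s4 : 0 ≤ (dg P K - 3) ^ 2 * a K ^ 2 := by positivity
        nlinarith
      have t2 : (ind (InV P K) * adj a K) ^ 2 ≤ adj a K ^ 2 := by
        rw [mul_pow]
        have s1 : ind (InV P K) ^ 2 ≤ 1 := by nlinarith
        have s4 : 0 ≤ adj a K ^ 2 := sq_nonneg _
        nlinarith
      rw [hx]
      set x := ind (InV P K) * ((dg P K - 3) * a K)
      set y := ind (InV P K) * adj a K
      nlinarith [sq_nonneg (x + y), sq_nonneg (x + u K), sq_nonneg (y - u K)]
    have hs : Summable fun K => 3 * (49 * a K ^ 2 + adj a K ^ 2 + u K ^ 2) :=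
      (((hSa.mul_left 49).add hSadja).add hSu).mul_left 3
    have hs' : Summable fun K => (ind (InV P K) * adj b K) ^ 2 :=
      Summable.of_nonneg_of_le (fun K => sq_nonneg _) hpt hs
    refine (hs'.tsum_le_tsum hpt hs).trans ?_
    rw [tsum_mul_left, ((hSa.mul_left 49).add hSadja).tsum_add hSu,
      (hSa.mul_left 49).tsum_add hSadja, tsum_mul_left]
    have := adj_sq_le hSa
    linarith
  -- the end
  set A := ∑' K, a K ^ 2 with hA
  set B := ∑' K, b K ^ 2 with hB
  set U := ∑' K, u K ^ 2 with hU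
  have hA0 : 0 ≤ A := tsum_nonneg fun K => sq_nonneg _
  have hB0 : 0 ≤ B := tsum_nonneg fun K => sq_nonneg _
  have hU0 : 0 ≤ U := tsum_nonneg fun K => sq_nonneg _
  set η : ℝ := 1 / (4470 * C₂) with hη
  have hη0 : 0 < η := by positivity
  have k1 := inq_bd hSu hSa (ε := 1 / 205) (by norm_num)
  have k2 := inq_bd hSu hSb hη0
  have k3 := Pool.Agent.Helper14.PN.st_BLB P u a (1 / 205) hSu hSa (by norm_num)
  have hnu := fin_SMT.1 u hSu
  have hna := fin_SMT.1 a hSa
  have k4 := Pool.Agent.Helper14.PN.st_BLB P.mir (ng u) (ng a) (1 / 205) hnu.1 hna.1 (by norm_num)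
  rw [hnu.2, hna.2] at k4
  have l1 := le_of_abs_le k1
  have l2 := neg_le_of_abs_le k2
  have l3 := neg_le_of_abs_le k3
  have l4 := neg_le_of_abs_le k4
  have hηi : η⁻¹ = 4470 * C₂ := by rw [hη, one_div, inv_inv]
  rw [hηi] at l2
  rw [← hA, ← hU] at l1 l3 l4
  have q1 : B ≤ C₂ * (447 * A + 3 * U) :=
    h3.trans (mul_le_mul_of_nonneg_left (by linarith) hC₂.le)
  have q2 : η * B ≤ 447 / 4470 * A + 3 / 4470 * U := by
    have : η * B ≤ η * (C₂ * (447 * A + 3 * U)) := mul_le_mul_of_nonneg_left q1 hη0.le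
    refine this.trans (le_of_eq ?_)
    rw [hη]
    field_simp
  have hinv : (1 / 205 : ℝ)⁻¹ = 205 := by norm_num
  rw [hinv] at l1 l3 l4
  have q3 : A ≤ 2 * (42026 + 22350 * C₂) * U := by
    have hCU : 0 ≤ C₂ * U := mul_nonneg hC₂.le hU0
    nlinarith [h1, h2, l1, l2, l3, l4, q2, hA0, hU0, hCU]
  have q4 : B ≤ C₂ * (447 * (2 * (42026 + 22350 * C₂)) + 3) * U := by
    refine q1.trans ?_
    have : 447 * A + 3 * U ≤ (447 * (2 * (42026 + 22350 * C₂)) + 3) * U := by
      nlinarith [q3]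
    calc C₂ * (447 * A + 3 * U) ≤ C₂ * ((447 * (2 * (42026 + 22350 * C₂)) + 3) * U) :=
          mul_le_mul_of_nonneg_left this hC₂.le
      _ = _ := by ring
  rw [hfab, add_mul]
  exact add_le_add q3 q4

end Pool.Agent.Helper85.ISO
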